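import Pool.Agent.H58.CT.Targets

/-!
# (TRN) cyclic terms, relative form
-/

set_option autoImplicit false

namespace Pool.Agent.H56.CT

open Pool.Agent.H58.CT

section

variable (𝒞 : Cln) {S : Type} (A : S → Type) [∀ s, Alg 𝒞 (A s)]

/-- terms with the same interpretations -/
def sto (I : Type) : Setoid (𝒞.T I) where
  r t t' := ∀ (_ : Finite I) (s : S) (x : I → A s), Alg.int t x = Alg.int t' x
  iseqv :=
    { refl := fun _ _ _ _ => rfl
      symm := fun h hI s x => (h hI s x).symm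
      trans := fun h h' hI s x => (h hI s x).trans (h' hI s x) }

/-- the quotient clone -/
noncomputable def qc : Cln where
  T I := Quotient (sto 𝒞 A I)
  pr i := Quotient.mk _ (𝒞.pr i)
  comp t s := Quotient.mk _ (𝒞.comp t.out (fun i => (s i).out))

theorem out_int {I : Type} [hI : Finite I] (t : 𝒞.T I) (s : S) (x : I → A s) :
    Alg.int (Quotient.out (Quotient.mk (sto 𝒞 A I) t)) x = Alg.int t x :=
  (Quotient.mk_out (s := sto 𝒞 A I) t : _) hI s x

/-- the algebras of the quotient clone -/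
@[reducible] noncomputable def qa (s : S) : Alg (qc 𝒞 A) (A s) where
  int t x := Alg.int (𝒞 := 𝒞) (Quotient.out t) x
  int_pr i x := by
    rw [show Alg.int (𝒞 := 𝒞) (Quotient.out ((qc 𝒞 A).pr i)) x = Alg.int (𝒞.pr i) x from
      out_int 𝒞 A (𝒞.pr i) s x]
    exact Alg.int_pr i x
  int_comp t u x := by
    refine (out_int 𝒞 A (𝒞.comp (Quotient.out t) (fun i => Quotient.out (u i))) s x).trans ?_
    exact Alg.int_comp _ _ x
  idem t a := Alg.idem (𝒞 := 𝒞) (Quotient.out t) a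

theorem noPrj_qc (h : NoPrjOn 𝒞 A) : NoPrj (qc 𝒞 A) := by
  rintro ⟨ι, h1, h2⟩
  apply h
  refine ⟨fun I _ t => ι I (Quotient.mk (sto 𝒞 A I) t), ?_, ?_, ?_⟩
  · intro I _ i
    exact h1 I i
  · intro I J _ _ t s
    have h3 := h2 I J (Quotient.mk (sto 𝒞 A I) t) (fun i => Quotient.mk (sto 𝒞 A J) (s i))
    have h4 : (qc 𝒞 A).comp (Quotient.mk (sto 𝒞 A I) t)
        (fun i => Quotient.mk (sto 𝒞 A J) (s i)) = Quotient.mk (sto 𝒞 A J) (𝒞.comp t s) := by
      refine Quotient.sound (s := sto 𝒞 A J) ?_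
      intro hJ σ x
      rw [Alg.int_comp, Alg.int_comp, out_int 𝒞 A t σ]
      congr 1
      funext i
      exact out_int 𝒞 A (s i) σ x
    rw [h4] at h3
    exact h3
  · intro I _ t t' htt
    exact congrArg (ι I) (Quotient.sound (s := sto 𝒞 A I) fun _ s x => htt s x)

end

theorem pf_TRN (hTRM : T_TRM) : T_TRN := by
  intro 𝒞 S _ A _ _ p _ hN hc
  let _ : ∀ s, Alg (qc 𝒞 A) (A s) := fun s => qa 𝒞 A s
  obtain ⟨t, ht⟩ := hTRM (qc 𝒞 A) S A p (noPrj_qc 𝒞 A hN) hc
  exact ⟨Quotient.out t, fun s x => ht s x⟩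

end Pool.Agent.H56.CT
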